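import Pool.Agent.H78.HMinMain

/-!
# `ℓ`-h-minimality passes from an `RV`-expansion to the original language

See `Pool/Agent/H78/HMinDefs.lean` for all the definitions used in the statement:
`Lval`, `IsValuedStr`, `rvEq`, `Prepares`, `DefinableRV`, `HMin`, `relLang`, `IsRVRel`.
-/

set_option autoImplicit false

universe u

open FirstOrder FirstOrder.Language Set
open Pool.Agent.H78.HM

namespace Pool.Agent.Results.MP_6c374b_lc.RVReduct

/-- Let `K` be a non-trivially valued field, considered as a structure in a language
`L ⊇ L_val = {+, ·, O}`, and let `L' = L ∪ R` be an arbitrary `RV`-expansion of `L`: the new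
symbols `R` are predicates on Cartesian powers of `RV_K`. Let `ℓ ∈ ℕ ∪ {ω}`. If the theory of
`K` in `L'` is `ℓ`-h-minimal, then the theory of `K` in `L` is `ℓ`-h-minimal. -/
theorem result {L : FirstOrder.Language.{u, u}} (φ : Lval →ᴸ L) (R : ℕ → Type u)
    (K : Type u) [Field K] [L.Structure K] [(relLang R).Structure K]
    (O : ValuationSubring K) (hK : IsValuedStr φ K O) (hO : O ≠ ⊤) (hR : IsRVRel O R)
    (ell : ℕ∞)
    (h : HMin ((LHom.sumInl : L →ᴸ L.sum (relLang R)).comp φ) ell K) :
    HMin φ ell K := by
  refine main_reduct (ι := (LHom.sumInl : L →ᴸ L.sum (relLang R))) hK hO ?_ ?_ h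
  · intro n f
    rcases f with f | f
    · exact ⟨f, rfl⟩
    · exact f.elim
  · intro n r
    rcases r with r | r
    · exact Or.inl ⟨r, rfl⟩
    · refine Or.inr fun x y hxy => ?_
      exact hR n r x y hxy

end Pool.Agent.Results.MP_6c374b_lc.RVReduct
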